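import Pool.Agent.Lib.MP_85963d_gt.H70.Forms2

/-!
# MP_85963d_gt: BETA1D, two bumps beyond `tc` with non-degenerate moments (helper55)
-/

set_option autoImplicit false

open MeasureTheory Set Filter Topology Real
open scoped ContDiff

namespace Pool.Agent.MP85963d.H55

open Pool.Agent.Lib.MP_85963d_gt.H70

/-- the bump of inner radius `1/8` and outer radius `1/4` at `c` -/
noncomputable def bump (c : ℝ) : ContDiffBump c := ⟨1 / 8, 1 / 4, by norm_num, by norm_num⟩

private lemma bump_zero {c t : ℝ} (h : 1 / 4 ≤ |t - c|) : bump c t = 0 := by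
  apply (bump c).zero_of_le_dist
  rw [Real.dist_eq]
  exact h

private lemma bump_one {c t : ℝ} (h : |t - c| ≤ 1 / 8) : bump c t = 1 := by
  apply (bump c).one_of_mem_closedBall
  rw [Metric.mem_closedBall, Real.dist_eq]
  exact h

private lemma bump_nonneg (c t : ℝ) : 0 ≤ bump c t := (bump c).nonneg

private lemma bump_sqrt_zero {c S : ℝ} (hc : 1 / 2 < c)
    (h : S ∉ Icc ((c - 1 / 4) ^ 2) ((c + 1 / 4) ^ 2)) : bump c (√S) = 0 := by
  apply bump_zero
  by_contra hlt
  push Not at hlt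
  rw [abs_lt] at hlt
  apply h
  have h0 : 0 ≤ √S := Real.sqrt_nonneg S
  have hpos : 0 < √S := by linarith
  have hS : 0 < S := Real.sqrt_pos.mp hpos
  have hsq : √S ^ 2 = S := Real.sq_sqrt hS.le
  constructor
  · rw [← hsq]
    exact pow_le_pow_left₀ (by linarith) (by linarith) 2
  · rw [← hsq]
    exact pow_le_pow_left₀ h0 (by linarith) 2

/-- the integrand -/
noncomputable def fn (y0 c : ℝ) (j : ℕ) (S : ℝ) : ℝ := 1 / S ^ j * √(S + y0) * bump c (√S)

private lemma fn_zero {y0 c : ℝ} (hc : 1 / 2 < c) (j : ℕ) {S : ℝ}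
    (h : S ∉ Icc ((c - 1 / 4) ^ 2) ((c + 1 / 4) ^ 2)) : fn y0 c j S = 0 := by
  unfold fn
  rw [bump_sqrt_zero hc h, mul_zero]

private lemma fn_nonneg (y0 : ℝ) {c : ℝ} (hc : 1 / 2 < c) (j : ℕ) (S : ℝ) : 0 ≤ fn y0 c j S := by
  by_cases h : S ∈ Icc ((c - 1 / 4) ^ 2) ((c + 1 / 4) ^ 2)
  · have hS : 0 ≤ S := le_trans (by positivity) h.1
    unfold fn
    have := bump_nonneg c (√S)
    positivity
  · rw [fn_zero hc j h]

private lemma fn_integrable (y0 : ℝ) {c : ℝ} (hc : 1 / 2 < c) (j : ℕ) :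
    Integrable (fn y0 c j) := by
  have hs : Function.support (fn y0 c j) ⊆ Icc ((c - 1 / 4) ^ 2) ((c + 1 / 4) ^ 2) := by
    intro S hS
    by_contra h
    exact hS (fn_zero hc j h)
  rw [← integrableOn_iff_integrable_of_support_subset hs]
  apply ContinuousOn.integrableOn_compact isCompact_Icc
  unfold fn
  apply ContinuousOn.mul
  · apply ContinuousOn.mul
    · apply ContinuousOn.div continuousOn_const (continuousOn_id.pow j)
      intro S hS
      have h1 : 0 < (c - 1 / 4) ^ 2 := by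
        have : 0 < c - 1 / 4 := by linarith
        positivity
      have : 0 < S := lt_of_lt_of_le h1 hS.1
      exact pow_ne_zero j this.ne'
    · exact ((continuous_id.add continuous_const).sqrt).continuousOn
  · exact ((bump c).continuous.comp Real.continuous_sqrt).continuousOn

private lemma fn_int_pos {tc y0 c : ℝ} (htc : 0 < tc) (hy : 0 < tc ^ 2 + y0)
    (hc : tc + 1 / 2 < c) (j : ℕ) : 0 < ∫ S in Ioi (tc ^ 2), fn y0 c j S := by
  have hc' : 1 / 2 < c := by linarith
  rw [setIntegral_pos_iff_support_of_nonneg_ae]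
  · have hsub : Ioo (c ^ 2) ((c + 1 / 8) ^ 2) ⊆
        Function.support (fn y0 c j) ∩ Ioi (tc ^ 2) := by
      intro S hS
      have hcc : tc ^ 2 < c ^ 2 := by nlinarith
      have hS0 : 0 < S := lt_trans (by positivity) hS.1
      have hSt : tc ^ 2 < S := lt_trans hcc hS.1
      refine ⟨?_, hSt⟩
      rw [Function.mem_support]
      unfold fn
      have h1 : c < √S := by
        rw [Real.lt_sqrt (by linarith)]
        exact hS.1
      have h2 : √S < c + 1 / 8 := by
        rw [Real.sqrt_lt' (by linarith)]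
        exact hS.2
      rw [bump_one (by rw [abs_le]; constructor <;> linarith), mul_one]
      have h3 : 0 < S + y0 := by linarith
      positivity
    refine lt_of_lt_of_le ?_ (measure_mono hsub)
    rw [Real.volume_Ioo, ENNReal.ofReal_pos]
    nlinarith
  · exact Filter.Eventually.of_forall (fun S => fn_nonneg y0 hc' j S)
  · exact (fn_integrable y0 hc' j).integrableOn

private lemma fn_succ_ge {y0 c : ℝ} (hc : 1 / 2 < c) (j : ℕ) (S : ℝ) :
    1 / (c + 1 / 4) ^ 2 * fn y0 c j S ≤ fn y0 c (j + 1) S := by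
  by_cases h : S ∈ Icc ((c - 1 / 4) ^ 2) ((c + 1 / 4) ^ 2)
  · have h1 : 0 < (c - 1 / 4) ^ 2 := by
      have : 0 < c - 1 / 4 := by linarith
      positivity
    have hS : 0 < S := lt_of_lt_of_le h1 h.1
    have e : fn y0 c (j + 1) S = 1 / S * fn y0 c j S := by
      unfold fn
      rw [pow_succ]
      field_simp
    rw [e]
    apply mul_le_mul_of_nonneg_right _ (fn_nonneg y0 hc j S)
    exact one_div_le_one_div_of_le hS h.2
  · rw [fn_zero hc j h, fn_zero hc (j + 1) h, mul_zero]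

private lemma fn_succ_le {y0 c : ℝ} (hc : 1 / 2 < c) (j : ℕ) (S : ℝ) :
    fn y0 c (j + 1) S ≤ 1 / (c - 1 / 4) ^ 2 * fn y0 c j S := by
  by_cases h : S ∈ Icc ((c - 1 / 4) ^ 2) ((c + 1 / 4) ^ 2)
  · have h1 : 0 < (c - 1 / 4) ^ 2 := by
      have : 0 < c - 1 / 4 := by linarith
      positivity
    have hS : 0 < S := lt_of_lt_of_le h1 h.1
    have e : fn y0 c (j + 1) S = 1 / S * fn y0 c j S := by
      unfold fn
      rw [pow_succ]
      field_simp
    rw [e]
    apply mul_le_mul_of_nonneg_right _ (fn_nonneg y0 hc j S)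
    exact one_div_le_one_div_of_le h1 h.1
  · rw [fn_zero hc j h, fn_zero hc (j + 1) h, mul_zero]

/-- **BETA1D** -/
theorem beta_holds : BetaStatement := by
  intro tc y0 htc hy
  set c : Fin 2 → ℝ := ![tc + 1, tc + 2] with hcdef
  have hc : ∀ i, tc + 1 / 2 < c i := by
    intro i
    fin_cases i <;> simp [hcdef] <;> linarith
  have hc' : ∀ i, 1 / 2 < c i := fun i => lt_trans (by linarith) (hc i)
  refine ⟨fun i => bump (c i), fun i => (bump (c i)).contDiff, fun i => (bump (c i)).hasCompactSupport,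
    ?_, ?_, ?_⟩
  · intro i t ht
    rw [(bump (c i)).tsupport_eq, Metric.mem_closedBall, Real.dist_eq] at ht
    have h1 : |t - c i| ≤ 1 / 4 := ht
    rw [abs_le] at h1
    have := hc i
    show tc < t
    linarith
  · intro i j _
    exact (fn_integrable y0 (hc' i) j).integrableOn
  · rw [Matrix.det_fin_two]
    simp only [Matrix.of_apply]
    show (∫ S in Ioi (tc ^ 2), fn y0 (c 0) 1 S) * (∫ S in Ioi (tc ^ 2), fn y0 (c 1) 2 S)
      - (∫ S in Ioi (tc ^ 2), fn y0 (c 1) 1 S) * (∫ S in Ioi (tc ^ 2), fn y0 (c 0) 2 S) ≠ 0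
    have hp0 := fn_int_pos htc hy (hc 0) 1
    have hp1 := fn_int_pos htc hy (hc 1) 1
    have h0 : 1 / (c 0 + 1 / 4) ^ 2 * (∫ S in Ioi (tc ^ 2), fn y0 (c 0) 1 S)
        ≤ ∫ S in Ioi (tc ^ 2), fn y0 (c 0) 2 S := by
      rw [← integral_const_mul]
      exact setIntegral_mono ((fn_integrable y0 (hc' 0) 1).integrableOn.const_mul _)
        (fn_integrable y0 (hc' 0) 2).integrableOn (fun S => fn_succ_ge (hc' 0) 1 S)
    have h1 : (∫ S in Ioi (tc ^ 2), fn y0 (c 1) 2 S)
        ≤ 1 / (c 1 - 1 / 4) ^ 2 * (∫ S in Ioi (tc ^ 2), fn y0 (c 1) 1 S) := by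
      rw [← integral_const_mul]
      exact setIntegral_mono (fn_integrable y0 (hc' 1) 2).integrableOn
        ((fn_integrable y0 (hc' 1) 1).integrableOn.const_mul _) (fun S => fn_succ_le (hc' 1) 1 S)
    have hlt : 1 / (c 1 - 1 / 4) ^ 2 < 1 / (c 0 + 1 / 4) ^ 2 := by
      have e0 : c 0 = tc + 1 := by simp [hcdef]
      have e1 : c 1 = tc + 2 := by simp [hcdef]
      rw [e0, e1]
      apply one_div_lt_one_div_of_lt (by positivity)
      nlinarith
    set a := ∫ S in Ioi (tc ^ 2), fn y0 (c 0) 1 S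
    set b := ∫ S in Ioi (tc ^ 2), fn y0 (c 1) 1 S
    set a2 := ∫ S in Ioi (tc ^ 2), fn y0 (c 0) 2 S
    set b2 := ∫ S in Ioi (tc ^ 2), fn y0 (c 1) 2 S
    set p := 1 / (c 0 + 1 / 4) ^ 2
    set q := 1 / (c 1 - 1 / 4) ^ 2
    have k1 : a * b2 ≤ a * (q * b) := mul_le_mul_of_nonneg_left h1 hp0.le
    have k2 : b * (p * a) ≤ b * a2 := mul_le_mul_of_nonneg_left h0 hp1.le
    have k3 : a * (q * b) < b * (p * a) := by
      have hab : 0 < a * b := mul_pos hp0 hp1
      nlinarith
    exact (sub_neg.mpr (by linarith)).ne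

end Pool.Agent.MP85963d.H55
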