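import Pool.Agent.Lib.MP_85963d_gt.H70.Forms4
import Pool.Agent.Lib.MP_85963d_gt.H84.Wlip

/-!
# MP_85963d_gt: PDWT, profile data give weights of the class `WT` (helper55)
-/

set_option autoImplicit false

open MeasureTheory Set Filter Topology Real

namespace Pool.Agent.MP85963d.H55

open Pool.Agent.MP85963d Pool.Agent.Lib.MP_85963d_gt Pool.Agent.Lib.MP_85963d_gt.H70

/-- the size estimate near `(1, 0)` -/
lemma near_est {c C b P Q S K X Y : ℝ} (hc : 0 < c) (hP : c ≤ P) (hP' : P ≤ C)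
    (hS : c ≤ S) (hS' : S ≤ C) (hQ : |Q| ≤ C) (hK : |K| ≤ C) (hX : 0 ≤ X) (hY : 0 ≤ Y)
    (hXY : X + Y ≤ b) (nP : |P - 1| ≤ C * X) (nS : |S - 1| ≤ C * X) :
    |omn P Q S K Y - 1| ≤
      (2 * C + (2 * C ^ 2 / c + C) * ((C * (1 + 2 * b)) ^ 2 + C * (1 + 2 * b) + 1)) / c ^ 3 *
        (X + Y) := by
  have hC : 0 < C := lt_of_lt_of_le hc (hP.trans hP')
  have hb : 0 ≤ b := le_trans (by positivity) hXY
  have hYb : Y ≤ b := by linarith
  set R : ℝ := Q ^ 2 + S ^ 2 with hR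
  have hQ2 : Q ^ 2 ≤ C ^ 2 := by
    have := abs_le.1 hQ
    nlinarith [this.1, this.2]
  have hS2 : S ^ 2 ≤ C ^ 2 := by nlinarith
  have hR0 : 0 ≤ R := by positivity
  have hR2 : R ≤ 2 * C ^ 2 := by linarith
  have hYR : 0 ≤ Y * R := mul_nonneg hY hR0
  set D : ℝ := √(P ^ 2 + Y * R) with hD
  have hD2 : D ^ 2 = P ^ 2 + Y * R := Real.sq_sqrt (by positivity)
  have hD0 : 0 ≤ D := Real.sqrt_nonneg _
  have hPD : P ≤ D := by
    apply Real.le_sqrt_of_sq_le
    linarith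
  have hcD : c ≤ D := hP.trans hPD
  have hDM : D ≤ C * (1 + 2 * b) := by
    have h1 : D ^ 2 ≤ (C * (1 + 2 * b)) ^ 2 := by
      rw [hD2]
      have h2 : P ^ 2 ≤ C ^ 2 := by nlinarith
      have h3 : Y * R ≤ b * (2 * C ^ 2) := mul_le_mul hYb hR2 hR0 hb
      nlinarith [mul_nonneg hb (sq_nonneg C), mul_nonneg (mul_nonneg hb hb) (sq_nonneg C)]
    exact le_of_sq_le_sq h1 (by positivity)
  have hD1 : |D - 1| ≤ (2 * C ^ 2 / c + C) * (X + Y) := by
    have h1 : D - P ≤ 2 * C ^ 2 / c * Y := by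
      have h2 : (D - P) * c ≤ 2 * C ^ 2 * Y := by
        have h3 : (D - P) * (D + P) = Y * R := by nlinarith [hD2]
        have h4 : (D - P) * c ≤ (D - P) * (D + P) :=
          mul_le_mul_of_nonneg_left (by linarith) (by linarith)
        have h5 : Y * R ≤ Y * (2 * C ^ 2) := mul_le_mul_of_nonneg_left hR2 hY
        linarith
      rw [div_mul_eq_mul_div, le_div_iff₀ hc]
      exact h2
    have h6 : |D - 1| ≤ |D - P| + |P - 1| := by
      have := abs_add_le (D - P) (P - 1)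
      simpa using this
    rw [abs_of_nonneg (by linarith : (0:ℝ) ≤ D - P)] at h6
    have h7 : 0 ≤ 2 * C ^ 2 / c * X := by positivity
    have h8 : 0 ≤ C * Y := by positivity
    nlinarith
  have hD3 : |D ^ 3 - 1| ≤ (2 * C ^ 2 / c + C) * (X + Y) *
      ((C * (1 + 2 * b)) ^ 2 + C * (1 + 2 * b) + 1) := by
    have e : D ^ 3 - 1 = (D - 1) * (D ^ 2 + D + 1) := by ring
    rw [e, abs_mul, abs_of_nonneg (by positivity : (0:ℝ) ≤ D ^ 2 + D + 1)]
    apply mul_le_mul hD1 _ (by positivity) (by positivity)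
    gcongr
  have hDpos : 0 < D := lt_of_lt_of_le hc hcD
  have e : omn P Q S K Y - 1 = ((S - 1) + Y * K - (D ^ 3 - 1)) / D ^ 3 := by
    unfold omn
    rw [← hR, ← hD]
    field_simp
    ring
  rw [e, abs_div, abs_of_pos (by positivity : (0:ℝ) < D ^ 3)]
  have hnum : |(S - 1) + Y * K - (D ^ 3 - 1)| ≤
      (2 * C + (2 * C ^ 2 / c + C) * ((C * (1 + 2 * b)) ^ 2 + C * (1 + 2 * b) + 1)) *
        (X + Y) := by
    have h1 : |(S - 1) + Y * K - (D ^ 3 - 1)| ≤ |S - 1| + |Y * K| + |D ^ 3 - 1| := by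
      refine (abs_sub _ _).trans ?_
      gcongr
      exact abs_add_le _ _
    have h2 : |Y * K| ≤ C * Y := by
      rw [abs_mul, abs_of_nonneg hY, mul_comm]
      gcongr
    have h3 : 0 ≤ C * X := by positivity
    have h4 : 0 ≤ C * Y := by positivity
    nlinarith
  calc _ ≤ (2 * C + (2 * C ^ 2 / c + C) * ((C * (1 + 2 * b)) ^ 2 + C * (1 + 2 * b) + 1)) *
        (X + Y) / D ^ 3 := by gcongr
    _ ≤ (2 * C + (2 * C ^ 2 / c + C) * ((C * (1 + 2 * b)) ^ 2 + C * (1 + 2 * b) + 1)) *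
        (X + Y) / c ^ 3 := by gcongr
    _ = _ := by ring

/-- PDWT -/
theorem pdwt_holds : PdWtStatement := by
  intro T c C hT hc hC
  obtain ⟨hder, hLip⟩ := H84.wlip_holds
  obtain ⟨L, hL, hbd, -⟩ := hLip c C (T ^ 2) hc hC (by positivity)
  refine ⟨max L ((2 * C + (2 * C ^ 2 / c + C) *
    ((C * (1 + 2 * T ^ 2)) ^ 2 + C * (1 + 2 * T ^ 2) + 1)) / c ^ 3), c / (C + 1) ^ 3,
    by positivity, ?_⟩
  intro P Q S K h
  have hsq : ∀ X, 0 < X → X ≤ T ^ 2 → √X ∈ Ioc 0 T := by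
    intro X h1 h2
    refine ⟨Real.sqrt_pos.2 h1, ?_⟩
    rw [Real.sqrt_le_left hT.le]
    exact h2
  refine ⟨?_, ?_, ?_, ?_, ?_, ?_, ?_, ?_⟩
  · have m1 : Measurable fun p : ℝ × ℝ => √p.1 := measurable_fst.sqrt
    have mP := h.mP.comp m1
    have mQ := h.mQ.comp m1
    have mS := h.mS.comp m1
    have mK := h.mK.comp m1
    exact (mS.add (measurable_snd.mul mK)).div
      ((((mP.pow_const 2).add (measurable_snd.mul ((mQ.pow_const 2).add
        (mS.pow_const 2)))).sqrt).pow_const 3)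
  · have m1 : Measurable fun p : ℝ × ℝ => √p.1 := measurable_fst.sqrt
    have mP := h.mP.comp m1
    have mQ := h.mQ.comp m1
    have mS := h.mS.comp m1
    have mK := h.mK.comp m1
    have mR := (mQ.pow_const 2).add (mS.pow_const 2)
    have mD := ((mP.pow_const 2).add (measurable_snd.mul mR)).sqrt
    exact (mK.div (mD.pow_const 3)).sub
      ((((mS.add (measurable_snd.mul mK)).const_mul (3 / 2)).mul mR).div (mD.pow_const 5))
  · intro X Y hX hY hXY
    have ht := hsq X hX (by linarith)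
    exact hder _ _ _ _ Y (lt_of_lt_of_le hc (h.bP _ ht).1) hY
  · intro X hX hXb
    have ht := hsq X hX hXb
    have hPpos : 0 < P (√X) := lt_of_lt_of_le hc (h.bP _ ht).1
    have hpos : ∀ Y ∈ Icc 0 (T ^ 2 - X),
        0 < √(P (√X) ^ 2 + Y * (Q (√X) ^ 2 + S (√X) ^ 2)) := by
      intro Y hY
      apply Real.sqrt_pos.2
      have := mul_nonneg hY.1 (by positivity : (0:ℝ) ≤ Q (√X) ^ 2 + S (√X) ^ 2)
      positivity
    unfold om' omn'
    apply ContinuousOn.sub
    · apply ContinuousOn.div continuousOn_const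
      · fun_prop
      · intro Y hY
        exact (pow_pos (hpos Y hY) 3).ne'
    · apply ContinuousOn.div
      · fun_prop
      · fun_prop
      · intro Y hY
        exact (pow_pos (hpos Y hY) 5).ne'
  · intro X Y hX hY hXY
    have ht := hsq X hX (by linarith)
    have hX2 : √X ^ 2 = X := Real.sq_sqrt hX.le
    have n1 := h.nP _ ht
    have n2 := h.nS _ ht
    rw [hX2] at n1 n2
    have h1 := near_est hc (h.bP _ ht).1 (h.bP _ ht).2 (h.bS _ ht).1 (h.bS _ ht).2
      (h.bQ _ ht) (h.bK _ ht) hX.le hY hXY n1 n2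
    rw [om_eq_omn]
    refine h1.trans ?_
    gcongr
    exact le_max_right _ _
  · intro X Y hX hY hXY
    have ht := hsq X hX (by linarith)
    exact ((hbd _ _ _ _ Y (h.bP _ ht).1 (h.bP _ ht).2 (h.bS _ ht).1 (h.bS _ ht).2
      (h.bQ _ ht) (h.bK _ ht) hY (by linarith)).2).trans (le_max_left _ _)
  · have m : MapsTo (fun s : ℝ => √s) (Ioc 0 (T ^ 2)) (Ioc 0 T) := fun s hs => hsq s hs.1 hs.2
    have cs : ContinuousOn (fun s : ℝ => √s) (Ioc 0 (T ^ 2)) := by fun_prop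
    have cP : ContinuousOn (fun s : ℝ => P (√s)) (Ioc 0 (T ^ 2)) := h.cP.comp cs m
    have cS : ContinuousOn (fun s : ℝ => S (√s)) (Ioc 0 (T ^ 2)) := h.cS.comp cs m
    have e : ∀ s ∈ Ioc 0 (T ^ 2), om P Q S K s 0 = S (√s) / P (√s) ^ 3 := by
      intro s hs
      have hp := lt_of_lt_of_le hc (h.bP _ (m hs)).1
      simp only [om, zero_mul, add_zero]
      rw [Real.sqrt_sq hp.le]
    apply ContinuousOn.congr _ e
    apply ContinuousOn.div cS (cP.pow 3)
    intro s hs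
    exact (pow_pos (lt_of_lt_of_le hc (h.bP _ (m hs)).1) 3).ne'
  · intro s hs hsb
    have ht := hsq s hs hsb
    have hp := lt_of_lt_of_le hc (h.bP _ ht).1
    simp only [om, zero_mul, add_zero]
    rw [Real.sqrt_sq hp.le]
    have h1 := (h.bP _ ht).2
    have h2 := (h.bS _ ht).1
    calc c / (C + 1) ^ 3 ≤ S (√s) / (C + 1) ^ 3 := by gcongr
      _ ≤ S (√s) / P (√s) ^ 3 := by
        apply div_le_div_of_nonneg_left (by linarith) (by positivity)
        gcongr
        linarith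

end Pool.Agent.MP85963d.H55
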