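import Pool.Agent.Lib.MP_85963d_gt.H70.Forms

/-!
# MP_85963d_gt: T1CONV, the change of variables `X = (a cos φ)²` (helper55)
-/

set_option autoImplicit false

open MeasureTheory Set Filter Topology Real

namespace Pool.Agent.MP85963d.H55

open Pool.Agent.MP85963d Pool.Agent.Lib.MP_85963d_gt.H70

private lemma img_eq {a : ℝ} (ha : 0 < a) :
    (fun φ : ℝ => (a * Real.cos φ) ^ 2) '' Ioo 0 (π / 2) = Ioo 0 (a ^ 2) := by
  ext X
  constructor
  · rintro ⟨φ, ⟨h0, h1⟩, rfl⟩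
    have hc : 0 < Real.cos φ := Real.cos_pos_of_mem_Ioo ⟨by linarith [Real.pi_pos], h1⟩
    have hs : 0 < Real.sin φ := Real.sin_pos_of_pos_of_lt_pi h0 (by linarith [Real.pi_pos])
    have h2 := Real.sin_sq_add_cos_sq φ
    refine ⟨by positivity, ?_⟩
    show (a * Real.cos φ) ^ 2 < a ^ 2
    have h3 : 0 < a ^ 2 * Real.sin φ ^ 2 := by positivity
    nlinarith
  · rintro ⟨h0, h1⟩
    have hsq : 0 < √X := Real.sqrt_pos.mpr h0
    have hlt : √X / a < 1 := by
      rw [div_lt_one ha]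
      rw [Real.sqrt_lt' ha]
      exact h1
    have hpos : 0 < √X / a := by positivity
    refine ⟨Real.arccos (√X / a), ⟨?_, ?_⟩, ?_⟩
    · exact Real.arccos_pos.mpr hlt
    · exact Real.arccos_lt_pi_div_two.mpr hpos
    · show (a * Real.cos (Real.arccos (√X / a))) ^ 2 = X
      rw [Real.cos_arccos (by linarith) hlt.le]
      have : a * (√X / a) = √X := by field_simp
      rw [this, Real.sq_sqrt h0.le]

private lemma inj_on {a : ℝ} (ha : 0 < a) :
    InjOn (fun φ : ℝ => (a * Real.cos φ) ^ 2) (Ioo 0 (π / 2)) := by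
  intro x hx y hy hxy
  have hcx : 0 < Real.cos x := Real.cos_pos_of_mem_Ioo ⟨by linarith [Real.pi_pos, hx.1], hx.2⟩
  have hcy : 0 < Real.cos y := Real.cos_pos_of_mem_Ioo ⟨by linarith [Real.pi_pos, hy.1], hy.2⟩
  have h1 : a * Real.cos x = a * Real.cos y := by
    have := (sq_eq_sq₀ (by positivity : (0:ℝ) ≤ a * Real.cos x)
      (by positivity : (0:ℝ) ≤ a * Real.cos y)).mp hxy
    exact this
  have h2 : Real.cos x = Real.cos y := mul_left_cancel₀ ha.ne' h1
  exact Real.injOn_cos ⟨hx.1.le, by linarith [hx.2, Real.pi_pos]⟩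
    ⟨hy.1.le, by linarith [hy.2, Real.pi_pos]⟩ h2

/-- **T1CONV** -/
theorem t1conv_holds : T1ConvStatement := by
  intro ψ g a ha
  have hder : ∀ φ ∈ Ioo (0:ℝ) (π / 2), HasDerivWithinAt (fun φ : ℝ => (a * Real.cos φ) ^ 2)
      (-(2 * a ^ 2 * Real.cos φ * Real.sin φ)) (Ioo 0 (π / 2)) φ := by
    intro φ _
    have h1 : HasDerivAt (fun φ : ℝ => a * Real.cos φ) (a * (-Real.sin φ)) φ :=
      (Real.hasDerivAt_cos φ).const_mul a
    have h2 := h1.pow 2
    have h3 : HasDerivAt (fun φ : ℝ => (a * Real.cos φ) ^ 2)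
      (-(2 * a ^ 2 * Real.cos φ * Real.sin φ)) φ := by
      refine h2.congr_deriv ?_
      push_cast
      ring
    exact h3.hasDerivWithinAt
  have key := integral_image_eq_integral_abs_deriv_smul measurableSet_Ioo hder (inj_on ha)
    (fun X => (g (√X) / √X) * (cker X (a ^ 2) * omψ ψ X (a ^ 2 - X)))
  rw [img_eq ha] at key
  rw [key]
  rw [T1, intervalIntegral.integral_of_le (by positivity), integral_Ioc_eq_integral_Ioo,
    ← integral_const_mul]
  refine setIntegral_congr_fun measurableSet_Ioo ?_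
  intro φ hφ
  have hc : 0 < Real.cos φ :=
    Real.cos_pos_of_mem_Ioo ⟨by linarith [Real.pi_pos, hφ.1], hφ.2⟩
  have hs : 0 < Real.sin φ :=
    Real.sin_pos_of_pos_of_lt_pi hφ.1 (by linarith [Real.pi_pos, hφ.2])
  have hsc := Real.sin_sq_add_cos_sq φ
  have hX : √((a * Real.cos φ) ^ 2) = a * Real.cos φ := Real.sqrt_sq (by positivity)
  have hY : a ^ 2 - (a * Real.cos φ) ^ 2 = (a * Real.sin φ) ^ 2 := by nlinarith
  have hYs : √((a * Real.sin φ) ^ 2) = a * Real.sin φ := Real.sqrt_sq (by positivity)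
  have hcos4 : Real.cos (4 * φ) = 1 - 8 * Real.cos φ ^ 2 * Real.sin φ ^ 2 := by
    have h4 : (4:ℝ) * φ = 2 * (2 * φ) := by ring
    rw [h4, Real.cos_two_mul, Real.cos_two_mul]
    have : Real.sin φ ^ 2 = 1 - Real.cos φ ^ 2 := by linarith
    rw [this]
    ring
  have hom : omψ ψ ((a * Real.cos φ) ^ 2) (a ^ 2 - (a * Real.cos φ) ^ 2)
      = W1 ψ (a * Real.cos φ) a := by
    simp only [omψ, om, W1, hX]
  have hck : cker ((a * Real.cos φ) ^ 2) (a ^ 2)
      = Real.cos (4 * φ) / (a * Real.sin φ) := by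
    unfold cker
    rw [hY, hYs, hcos4]
    congr 1
    field_simp
  have habs : |(-(2 * a ^ 2 * Real.cos φ * Real.sin φ))| = 2 * a ^ 2 * Real.cos φ * Real.sin φ := by
    rw [abs_neg, abs_of_pos (by positivity)]
  show Real.cos (4 * φ) * g (a * Real.cos φ) * W1 ψ (a * Real.cos φ) a
    = 1 / 2 * (|(-(2 * a ^ 2 * Real.cos φ * Real.sin φ))| •
      ((g (√((a * Real.cos φ) ^ 2)) / √((a * Real.cos φ) ^ 2)) *
        (cker ((a * Real.cos φ) ^ 2) (a ^ 2) *
          omψ ψ ((a * Real.cos φ) ^ 2) (a ^ 2 - (a * Real.cos φ) ^ 2))))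
  rw [hom, hck, habs, hX, smul_eq_mul]
  field_simp

end Pool.Agent.MP85963d.H55
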